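import Pool.Agent.Helper114.MontelSol

/-!
Preliminaries on entire functions: weight, limits, compactness.
-/

set_option autoImplicit false

namespace Pool.Agent.W778.UI

open Set Filter Topology Metric

/-- The weight. -/
noncomputable def rho (z : ℂ) : ℝ := |z.im| + Real.log (1 + ‖z‖ ^ 2)

theorem rho_nonneg (z : ℂ) : 0 ≤ rho z := by
  unfold rho
  have : 0 ≤ Real.log (1 + ‖z‖ ^ 2) := Real.log_nonneg (by nlinarith [norm_nonneg z])
  positivity

theorem continuous_rho : Continuous rho := by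
  unfold rho
  refine (Complex.continuous_im.abs).add (Continuous.log (by fun_prop) fun z => ?_)
  positivity

theorem rho_le {z w : ℂ} (h : ‖w - z‖ ≤ 2) : rho w ≤ rho z + 5 := by
  unfold rho
  have h1 : |w.im| ≤ |z.im| + 2 := by
    have h2 : |(w - z).im| ≤ 2 := (Complex.abs_im_le_norm _).trans h
    rw [Complex.sub_im] at h2
    have := abs_sub_abs_le_abs_sub w.im z.im
    linarith
  have h3 : ‖w‖ ≤ ‖z‖ + 2 := by
    have := norm_sub_norm_le w z
    linarith
  have h4 : 1 + ‖w‖ ^ 2 ≤ 9 * (1 + ‖z‖ ^ 2) := by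
    have h5 : ‖w‖ ^ 2 ≤ (‖z‖ + 2) ^ 2 := pow_le_pow_left₀ (norm_nonneg _) h3 2
    nlinarith [sq_nonneg (‖z‖ - 1), norm_nonneg z]
  have h6 : Real.log (1 + ‖w‖ ^ 2) ≤ Real.log 9 + Real.log (1 + ‖z‖ ^ 2) := by
    rw [← Real.log_mul (by norm_num) (by positivity)]
    exact Real.log_le_log (by positivity) h4
  have h7 : Real.log 9 ≤ 3 := by
    rw [Real.log_le_iff_le_exp (by norm_num)]
    have h8 : (2.7 : ℝ) ≤ Real.exp 1 := by linarith [Real.exp_one_gt_d9]
    calc (9:ℝ) ≤ 2.7 ^ 3 := by norm_num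
      _ ≤ (Real.exp 1) ^ 3 := by gcongr
      _ = Real.exp 3 := by rw [← Real.exp_nat_mul]; norm_num
  linarith

theorem one_add_norm_le (z : ℂ) : 1 + ‖z‖ ≤ 2 * Real.exp (rho z) := by
  have h1 : 1 + ‖z‖ ^ 2 ≤ Real.exp (rho z) := by
    unfold rho
    rw [Real.exp_add, Real.exp_log (by positivity)]
    have : 1 ≤ Real.exp |z.im| := Real.one_le_exp (abs_nonneg _)
    nlinarith [sq_nonneg ‖z‖]
  nlinarith [sq_nonneg (‖z‖ - 1), norm_nonneg z]

/-- Convergence of iterated derivatives. -/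
theorem tlu_iteratedDeriv {ι : Type*} {l : Filter ι} {F : ι → ℂ → ℂ} {f : ℂ → ℂ}
    (hF : ∀ i, Differentiable ℂ (F i)) (h : TendstoLocallyUniformlyOn F f l univ) (k : ℕ) :
    TendstoLocallyUniformlyOn (fun i => iteratedDeriv k (F i)) (iteratedDeriv k f) l univ := by
  induction k with
  | zero => simpa [iteratedDeriv_zero] using h
  | succ k ih =>
    have h1 := ih.deriv (Eventually.of_forall fun i => ?_) isOpen_univ
    · rw [iteratedDeriv_succ]
      have h2 : (fun i => iteratedDeriv (k + 1) (F i)) = deriv ∘ fun i => iteratedDeriv k (F i) := by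
        funext i
        simp [iteratedDeriv_succ]
      rw [h2]
      exact h1
    · have : ContDiff ℂ (k + 1 : ℕ) (F i) := (hF i).contDiff
      exact (this.differentiable_iteratedDeriv k (by exact_mod_cast Nat.lt_succ_self k)).differentiableOn

theorem tendsto_iteratedDeriv {ι : Type*} {l : Filter ι} {F : ι → ℂ → ℂ} {f : ℂ → ℂ}
    (hF : ∀ i, Differentiable ℂ (F i)) (h : TendstoLocallyUniformlyOn F f l univ) (k : ℕ) (a : ℂ) :
    Tendsto (fun i => iteratedDeriv k (F i) a) l (𝓝 (iteratedDeriv k f a)) :=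
  (tlu_iteratedDeriv hF h k).tendsto_at (mem_univ a)

/-- Compactness of a locally bounded family of entire functions. -/
theorem montel_entire (F : ℕ → ℂ → ℂ) (hF : ∀ n, Differentiable ℂ (F n)) (B : ℂ → ℝ)
    (hB : Continuous B) (hb : ∀ n z, ‖F n z‖ ≤ B z) (U : Ultrafilter ℕ) :
    ∃ Φ : ℂ → ℂ, Differentiable ℂ Φ ∧ (∀ z, ‖Φ z‖ ≤ B z) ∧
      TendstoLocallyUniformlyOn F Φ (U : Filter ℕ) univ := by
  have h1 : ∀ R : ℕ, ∃ Φ : ℂ → ℂ, DifferentiableOn ℂ Φ (ball 0 R) ∧
      TendstoLocallyUniformlyOn F Φ (U : Filter ℕ) (ball 0 R) := by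
    intro R
    obtain ⟨M, hM⟩ := (isCompact_closedBall (0:ℂ) R).bddAbove_image hB.continuousOn
    refine Pool.Agent.Helper114.Montel.montel isOpen_ball F (fun n => (hF n).differentiableOn) M
      (fun n z hz => (hb n z).trans ?_) U
    exact hM ⟨z, ball_subset_closedBall hz, rfl⟩
  choose Φ hΦd hΦ using h1
  -- pointwise limit
  have hex : ∀ z : ℂ, z ∈ ball (0:ℂ) (⌊‖z‖⌋₊ + 1 : ℕ) := by
    intro z
    rw [mem_ball_zero_iff]
    push_cast
    exact Nat.lt_floor_add_one _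
  set G : ℂ → ℂ := fun z => Φ (⌊‖z‖⌋₊ + 1) z with hG
  have hGt : ∀ z, Tendsto (fun n => F n z) (U : Filter ℕ) (𝓝 (G z)) := fun z =>
    (hΦ (⌊‖z‖⌋₊ + 1)).tendsto_at (hex z)
  have heq : ∀ R : ℕ, EqOn (Φ R) G (ball 0 R) := fun R z hz =>
    tendsto_nhds_unique ((hΦ R).tendsto_at hz) (hGt z)
  have hG1 : ∀ R : ℕ, TendstoLocallyUniformlyOn F G (U : Filter ℕ) (ball 0 R) := fun R =>
    (hΦ R).congr_right (heq R)
  have huniv : (⋃ R : ℕ, ball (0:ℂ) R) = univ := by
    refine eq_univ_of_forall fun z => mem_iUnion.2 ⟨_, hex z⟩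
  have hG2 : TendstoLocallyUniformlyOn F G (U : Filter ℕ) univ := by
    rw [← huniv]
    exact tendstoLocallyUniformlyOn_iUnion (fun R => isOpen_ball) hG1
  refine ⟨G, ?_, fun z => ?_, hG2⟩
  · rw [← differentiableOn_univ]
    exact hG2.differentiableOn (Eventually.of_forall fun n => (hF n).differentiableOn) isOpen_univ
  · exact le_of_tendsto (hGt z).norm (Eventually.of_forall fun n => hb n z)

end Pool.Agent.W778.UI
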