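import Pool.Agent.W778.UI.B

/-!
The combination `f = ∑ c_n h_n` with coefficients chosen by a counting argument.
-/

set_option autoImplicit false

namespace Pool.Agent.W778.UI

open Set Filter Topology Metric

/-- Counting lemma: few bad choices in every direction leave a good choice. -/
theorem good_tuple {M : ℕ} (L : Fin M → ℕ) (hL : ∀ m, 0 < L m)
    (bad : Fin M → (∀ n, Fin (L n)) → Prop)
    (hbad : ∀ m j j', bad m j → bad m j' → (∀ n, n ≠ m → j n = j' n) → j = j')
    (hsum : ∑ m, (1:ℝ) / L m < 1) : ∃ j, ∀ m, ¬ bad m j := by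
  classical
  by_contra hcon
  push Not at hcon
  set T : ℕ := ∏ n, L n with hT
  have hT0 : 0 < T := Finset.prod_pos fun n _ => hL n
  have hcard : ∀ m, (L m) * (Finset.univ.filter fun j => bad m j).card ≤ T := by
    intro m
    have h1 : (Finset.univ.filter fun j => bad m j).card ≤
        Fintype.card (∀ n : {n // n ≠ m}, Fin (L n)) := by
      rw [← Finset.card_univ]
      refine Finset.card_le_card_of_injOn (fun j n => j n) (fun _ _ => Finset.mem_coe.2 (Finset.mem_univ _)) ?_
      intro j hj j' hj' h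
      have hj1 : bad m j := by simpa using hj
      have hj2 : bad m j' := by simpa using hj'
      exact hbad m j j' hj1 hj2 fun n hn => congr_fun h ⟨n, hn⟩
    have h2 : Fintype.card (∀ n : {n // n ≠ m}, Fin (L n)) = ∏ n ∈ Finset.univ.erase m, L n := by
      rw [Fintype.card_pi]
      simp only [Fintype.card_fin]
      rw [← Finset.prod_subtype (Finset.univ.erase m) (p := fun n => n ≠ m)
        (fun x => by simp) (fun n => L n)]
    calc (L m) * (Finset.univ.filter fun j => bad m j).card
        ≤ L m * ∏ n ∈ Finset.univ.erase m, L n := by rw [← h2]; exact Nat.mul_le_mul_left _ h1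
      _ = T := Finset.mul_prod_erase _ _ (Finset.mem_univ m)
  have htot : (T : ℝ) ≤ ∑ m, ((Finset.univ.filter fun j => bad m j).card : ℝ) := by
    have h1 : (Finset.univ : Finset (∀ n, Fin (L n))) ⊆
        Finset.univ.biUnion fun m => Finset.univ.filter fun j => bad m j := by
      intro j _
      obtain ⟨m, hm⟩ := hcon j
      simp only [Finset.mem_biUnion, Finset.mem_filter, Finset.mem_univ, true_and]
      exact ⟨m, hm⟩
    have h2 := (Finset.card_le_card h1).trans Finset.card_biUnion_le
    rw [Finset.card_univ, Fintype.card_pi] at h2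
    simp only [Fintype.card_fin] at h2
    exact_mod_cast h2
  have h3 : ∑ m, ((Finset.univ.filter fun j => bad m j).card : ℝ) ≤ ∑ m, (T:ℝ) * (1 / L m) := by
    refine Finset.sum_le_sum fun m _ => ?_
    have hLm : (0:ℝ) < L m := by exact_mod_cast hL m
    rw [mul_one_div, le_div_iff₀ hLm, mul_comm]
    exact_mod_cast hcard m
  rw [← Finset.mul_sum] at h3
  have hT0' : (0:ℝ) < T := by exact_mod_cast hT0
  nlinarith

/-- Derivatives of `(z - b) g`. -/
theorem iteratedDeriv_sub_mul {g : ℂ → ℂ} (hg : Differentiable ℂ g) (b x : ℂ) (k : ℕ) :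
    iteratedDeriv k (fun z => (z - b) * g z) x =
      (x - b) * iteratedDeriv k g x + k * iteratedDeriv (k - 1) g x := by
  have key : ∀ k : ℕ, iteratedDeriv k (fun z => (z - b) * g z) =
      fun x => (x - b) * iteratedDeriv k g x + k * iteratedDeriv (k - 1) g x := by
    intro k
    induction k with
    | zero => funext x; simp
    | succ k ih =>
      funext x
      rw [iteratedDeriv_succ, ih]
      have hd : ∀ l : ℕ, Differentiable ℂ (iteratedDeriv l g) := fun l =>
        (hg.contDiff (n := (l + 1 : ℕ))).differentiable_iteratedDeriv l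
          (by exact_mod_cast Nat.lt_succ_self l)
      have h1 : HasDerivAt (fun x => (x - b) * iteratedDeriv k g x)
          (1 * iteratedDeriv k g x + (x - b) * deriv (iteratedDeriv k g) x) x :=
        ((hasDerivAt_id x).sub_const b).mul (hd k x).hasDerivAt
      have h2 : HasDerivAt (fun x => (k:ℂ) * iteratedDeriv (k - 1) g x)
          ((k:ℂ) * deriv (iteratedDeriv (k - 1) g) x) x := (hd (k - 1) x).hasDerivAt.const_mul _
      have h3 := (h1.add h2).deriv
      have h4 : deriv (fun x => (x - b) * iteratedDeriv k g x + k * iteratedDeriv (k - 1) g x) x =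
          1 * iteratedDeriv k g x + (x - b) * deriv (iteratedDeriv k g) x +
            (k:ℂ) * deriv (iteratedDeriv (k - 1) g) x := h3
      rw [h4, ← iteratedDeriv_succ, Nat.add_sub_cancel]
      rcases Nat.eq_zero_or_pos k with h0 | h0
      · subst h0; simp; ring
      · have h5 : k - 1 + 1 = k := Nat.sub_add_cancel h0
        rw [← iteratedDeriv_succ, h5]
        push_cast
        ring
  rw [key k]

/-- The main construction. -/
theorem main {a : ℕ → ℂ} {p : ℕ → ℕ} (hU : Univ a p) (hp : ∀ n, 1 ≤ p n) :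
    ∃ f : ℂ → ℂ, (Differentiable ℂ f ∧ ∃ A > (0:ℝ), ∃ B > (0:ℝ), ∀ z : ℂ,
      ‖f z‖ ≤ A * Real.exp (B * rho z)) ∧ (∃ z, f z ≠ 0) ∧
      (∀ n, ∀ k < p n, iteratedDeriv k f (a n) = 0) ∧
      ∃ ε > (0:ℝ), ∃ c > (0:ℝ), ∀ n,
        ε * Real.exp (-(c * rho (a n))) ≤
          ‖iteratedDeriv (p n) f (a n)‖ / ((p n).factorial : ℝ) := by
  classical
  obtain ⟨K, hK, hs⟩ := uniform_unit hU (fun n => p n - 1)
  obtain ⟨c₁, hc₁, hsum⟩ := summable_weight hU hp
  have hK0 : 0 < K := by linarith
  set S : ℝ := ∑' n, Real.exp (-(c₁ * rho (a n))) with hS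
  have hS0 : 0 ≤ S := tsum_nonneg fun n => (Real.exp_pos _).le
  choose g hgd hgb hgi using hs
  set h : ℕ → ℂ → ℂ := fun n z => (z - a n) * g n z with hh
  have hhd : ∀ n, Differentiable ℂ (h n) := fun n => (differentiable_id.sub_const _).mul (hgd n)
  have hhb : ∀ n z, ‖h n z‖ ≤ 4 * K * Real.exp ((K + 1) * rho z) * Real.exp (rho (a n)) := by
    intro n z
    have h1 : ‖z - a n‖ ≤ (1 + ‖z‖) * (1 + ‖a n‖) := by
      refine (norm_sub_le _ _).trans ?_
      nlinarith [norm_nonneg z, norm_nonneg (a n), mul_nonneg (norm_nonneg z) (norm_nonneg (a n))]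
    have h2 := one_add_norm_le z
    have h3 := one_add_norm_le (a n)
    have h4 := hgb n z
    have h5 : Real.exp ((K + 1) * rho z) = Real.exp (K * rho z) * Real.exp (rho z) := by
      rw [← Real.exp_add]; congr 1; ring
    calc ‖h n z‖ = ‖z - a n‖ * ‖g n z‖ := norm_mul _ _
      _ ≤ ((1 + ‖z‖) * (1 + ‖a n‖)) * (K * Real.exp (K * rho z)) := by gcongr
      _ ≤ ((2 * Real.exp (rho z)) * (2 * Real.exp (rho (a n)))) * (K * Real.exp (K * rho z)) := by
          gcongr
      _ = _ := by rw [h5]; ring
  have hh0 : ∀ n m, ∀ κ < p m, iteratedDeriv κ (h n) (a m) = 0 := by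
    intro n m κ hκ
    rw [hh]
    rw [iteratedDeriv_sub_mul (hgd n)]
    rcases Nat.eq_zero_or_pos κ with h0 | h0
    · subst h0
      rcases eq_or_ne m n with hmn | hmn
      · subst hmn; simp
      · rw [hgi n m 0 hκ]
        simp [hmn]
    · have h1 : κ - 1 < p m := by omega
      have h2 : κ - 1 ≠ p m - 1 := by omega
      rw [hgi n m (κ - 1) h1]
      rcases eq_or_ne m n with hmn | hmn
      · subst hmn; simp [h2]
      · rw [hgi n m κ hκ]; simp [hmn]
  have hh1 : ∀ n, iteratedDeriv (p n) (h n) (a n) = ((p n).factorial : ℂ) := by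
    intro n
    rw [hh]
    rw [iteratedDeriv_sub_mul (hgd n), hgi n n (p n - 1) (by have := hp n; omega)]
    simp only [sub_self, zero_mul, zero_add, decide_true, and_true, if_true]
    have h1 : (p n).factorial = p n * (p n - 1).factorial :=
      (Nat.mul_factorial_pred (by have := hp n; omega)).symm
    rw [h1]; push_cast; ring
  -- weights
  set r : ℕ → ℝ := fun n => Real.exp (-((c₁ + 1) * rho (a n))) with hr
  have hr0 : ∀ n, 0 < r n := fun n => Real.exp_pos _
  have hre : ∀ n, r n * Real.exp (rho (a n)) = Real.exp (-(c₁ * rho (a n))) := by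
    intro n
    show Real.exp (-((c₁ + 1) * rho (a n))) * Real.exp (rho (a n)) = _
    rw [← Real.exp_add]; congr 1; ring
  set D : ℕ → ℕ → ℂ := fun m n => iteratedDeriv (p m) (h n) (a m) / ((p m).factorial : ℂ) with hD
  have hfac : ∀ m, ((p m).factorial : ℂ) ≠ 0 := fun m => by exact_mod_cast (p m).factorial_ne_zero
  have hDm : ∀ m, D m m = 1 := fun m => by
    show iteratedDeriv (p m) (h m) (a m) / ((p m).factorial : ℂ) = 1
    rw [hh1 m, div_self (hfac m)]
  set Cm : ℕ → ℝ := fun m => 4 * K * Real.exp ((K + 1) * (rho (a m) + 5)) with hCm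
  have hDb : ∀ m n, ‖D m n‖ ≤ Cm m * Real.exp (rho (a n)) := by
    intro m n
    have h1 : ∀ z ∈ sphere (a m) 1, ‖h n z‖ ≤ Cm m * Real.exp (rho (a n)) := by
      intro z hz
      refine (hhb n z).trans ?_
      have h2 : rho z ≤ rho (a m) + 5 := rho_le (by
        rw [mem_sphere, dist_eq_norm] at hz; rw [hz]; norm_num)
      show _ ≤ 4 * K * Real.exp ((K + 1) * (rho (a m) + 5)) * Real.exp (rho (a n))
      gcongr
    have h3 := Complex.norm_iteratedDeriv_le_of_forall_mem_sphere_norm_le (p m) one_pos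
      (hhd n).diffContOnCl h1
    show ‖iteratedDeriv (p m) (h n) (a m) / ((p m).factorial : ℂ)‖ ≤ _
    rw [norm_div, Complex.norm_natCast, div_le_iff₀ (by exact_mod_cast (p m).factorial_pos)]
    rw [one_pow, div_one] at h3
    linarith
  have hCm0 : ∀ m, 0 < Cm m := fun m => by show 0 < 4 * K * _; positivity
  -- the numbers of choices
  set L : ℕ → ℕ := fun m => ⌈(S + 1) * Real.exp (c₁ * rho (a m))⌉₊ with hL
  have hLge : ∀ m, (S + 1) * Real.exp (c₁ * rho (a m)) ≤ (L m : ℝ) := fun m => Nat.le_ceil _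
  have hLpos : ∀ m, 0 < L m := fun m => by
    show 0 < ⌈_⌉₊
    rw [Nat.ceil_pos]; positivity
  have hLle : ∀ m, (L m : ℝ) ≤ (S + 2) * Real.exp (c₁ * rho (a m)) := by
    intro m
    have h1 : (L m : ℝ) < (S + 1) * Real.exp (c₁ * rho (a m)) + 1 :=
      Nat.ceil_lt_add_one (by positivity)
    have h2 : 1 ≤ Real.exp (c₁ * rho (a m)) :=
      Real.one_le_exp (mul_nonneg hc₁.le (rho_nonneg _))
    linarith
  set e : ℕ → ℝ := fun m => r m / (2 * L m) with he
  have he0 : ∀ m, 0 < e m := fun m => by
    show 0 < r m / (2 * L m)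
    have : (0:ℝ) < L m := by exact_mod_cast hLpos m
    have := hr0 m
    positivity
  -- finite problems
  have hfin : ∀ M : ℕ, ∃ c : ℕ → ℝ, (∀ n, c n ∈ Icc 0 (r n)) ∧ (∀ n, M ≤ n → c n = 0) ∧
      ∀ m < M, e m ≤ ‖∑ n ∈ Finset.range M, D m n * (c n : ℂ)‖ := by
    intro M
    set cc : (∀ n : Fin M, Fin (L n)) → ℕ → ℝ := fun j n =>
      if hn : n < M then 2 * e n * ((j ⟨n, hn⟩ : ℕ) : ℝ) else 0 with hcc
    have hsum1 : ∑ m : Fin M, (1:ℝ) / L m < 1 := by
      have h1 : ∑ m : Fin M, (1:ℝ) / L m ≤
          ∑ m : Fin M, Real.exp (-(c₁ * rho (a m))) / (S + 1) := by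
        refine Finset.sum_le_sum fun m _ => ?_
        have h2 := hLge m
        rw [Real.exp_neg, ← one_div, div_div]
        refine one_div_le_one_div_of_le (by positivity) ?_
        linarith
      have h2 : ∑ m : Fin M, Real.exp (-(c₁ * rho (a m))) / (S + 1) ≤ S / (S + 1) := by
        rw [← Finset.sum_div]
        gcongr
        rw [Fin.sum_univ_eq_sum_range (fun m => Real.exp (-(c₁ * rho (a m)))) M]
        exact hsum.sum_le_tsum _ (fun n _ => (Real.exp_pos _).le)
      have h3 : S / (S + 1) < 1 := by rw [div_lt_one (by linarith)]; linarith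
      linarith
    obtain ⟨j, hj⟩ := good_tuple (fun m : Fin M => L m) (fun m => hLpos m)
      (fun m j => ‖∑ n ∈ Finset.range M, D m n * (cc j n : ℂ)‖ < e m) (by
        intro m j j' h1 h2 hjj
        funext n
        rcases eq_or_ne n m with hnm | hnm
        · subst hnm
          have h3 : ∑ k ∈ Finset.range M, D n k * (cc j k : ℂ) -
              ∑ k ∈ Finset.range M, D n k * (cc j' k : ℂ) =
              (2 * e n * (((j n : ℕ) : ℝ) - ((j' n : ℕ) : ℝ)) : ℝ) := by
            rw [← Finset.sum_sub_distrib, Finset.sum_eq_single (n : ℕ)]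
            · rw [hDm]
              simp only [hcc, n.2, dif_pos, Fin.eta]
              push_cast
              ring
            · intro k hk hkn
              have hk' : k < M := Finset.mem_range.1 hk
              have h4 : j ⟨k, hk'⟩ = j' ⟨k, hk'⟩ := hjj ⟨k, hk'⟩ (fun hh => hkn (by
                rw [← hh]))
              simp only [hcc, hk', dif_pos, h4, sub_self]
            · intro hn; exact absurd (Finset.mem_range.2 n.2) hn
          have h5 : ‖((2 * e n * (((j n : ℕ) : ℝ) - ((j' n : ℕ) : ℝ)) : ℝ) : ℂ)‖ < 2 * e n := by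
            rw [← h3]
            refine lt_of_le_of_lt (norm_sub_le _ _) ?_
            linarith
          rw [Complex.norm_real, Real.norm_eq_abs, abs_mul, abs_of_pos (by have := he0 n; positivity)] at h5
          have h6 : |((j n : ℕ) : ℝ) - ((j' n : ℕ) : ℝ)| < 1 := by
            have := he0 n
            by_contra hc
            push Not at hc
            nlinarith
          have h7 : (j n : ℕ) = (j' n : ℕ) := by
            rw [abs_lt] at h6
            have h8 : ((j n : ℕ) : ℝ) < ((j' n : ℕ) : ℝ) + 1 := by linarith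
            have h9 : ((j' n : ℕ) : ℝ) < ((j n : ℕ) : ℝ) + 1 := by linarith
            have h10 : (j n : ℕ) < (j' n : ℕ) + 1 := by exact_mod_cast h8
            have h11 : (j' n : ℕ) < (j n : ℕ) + 1 := by exact_mod_cast h9
            omega
          exact Fin.ext h7
        · exact hjj n hnm) hsum1
    refine ⟨cc j, fun n => ?_, fun n hn => ?_, fun m hm => ?_⟩
    · by_cases hn : n < M
      · simp only [hcc, hn, dif_pos]
        have h1 : ((j ⟨n, hn⟩ : ℕ) : ℝ) ≤ L n := by
          exact_mod_cast (j ⟨n, hn⟩).2.le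
        have h2 := he0 n
        have h3 : (0:ℝ) < L n := by exact_mod_cast hLpos n
        refine ⟨by positivity, ?_⟩
        calc 2 * e n * ((j ⟨n, hn⟩ : ℕ) : ℝ) ≤ 2 * e n * L n := by gcongr
          _ = r n := by
            show 2 * (r n / (2 * L n)) * L n = r n
            field_simp
      · simp only [hcc, hn, dif_neg, not_false_eq_true]
        exact ⟨le_rfl, (hr0 n).le⟩
    · simp only [hcc, not_lt.2 hn, dif_neg, not_false_eq_true]
    · have := hj ⟨m, hm⟩
      push Not at this
      exact this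
  choose c hcI hc0 hce using hfin
  -- compactness
  have hcomp : IsCompact (Set.pi univ fun n : ℕ => Icc (0:ℝ) (r n)) :=
    isCompact_univ_pi fun n => isCompact_Icc
  obtain ⟨b, hb, φ, hφ, hlim⟩ := hcomp.tendsto_subseq (x := c) (fun M n _ => hcI M n)
  have hb' : ∀ n, b n ∈ Icc (0:ℝ) (r n) := fun n => hb n (mem_univ n)
  have hlimn : ∀ n, Tendsto (fun i => c (φ i) n) atTop (𝓝 (b n)) := fun n =>
    (tendsto_pi_nhds.1 hlim) n
  have hsumb : ∀ m, Summable fun n => Cm m * Real.exp (rho (a n)) * r n := by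
    intro m
    have : (fun n => Cm m * Real.exp (rho (a n)) * r n) =
        fun n => Cm m * Real.exp (-(c₁ * rho (a n))) := by
      funext n; rw [← hre n]; ring
    rw [this]
    exact hsum.mul_left _
  have hbd : ∀ m n (x : ℝ), x ∈ Icc (0:ℝ) (r n) → ‖D m n * (x : ℂ)‖ ≤ Cm m * Real.exp (rho (a n)) * r n := by
    intro m n x hx
    rw [norm_mul, Complex.norm_real, Real.norm_of_nonneg hx.1]
    exact mul_le_mul (hDb m n) hx.2 hx.1 (by have := hCm0 m; positivity)
  have hX : ∀ m, e m ≤ ‖∑' n, D m n * (b n : ℂ)‖ := by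
    intro m
    have h1 : Tendsto (fun i => ∑' n, D m n * (c (φ i) n : ℂ)) atTop (𝓝 (∑' n, D m n * (b n : ℂ))) := by
      refine tendsto_tsum_of_dominated_convergence (hsumb m) (fun n => ?_)
        (Eventually.of_forall fun i n => hbd m n _ (hcI _ n))
      exact (Complex.continuous_ofReal.continuousAt.tendsto.comp (hlimn n)).const_mul _
    refine ge_of_tendsto h1.norm ?_
    filter_upwards [eventually_gt_atTop m] with i hi
    have h2 : m < φ i := lt_of_lt_of_le hi (hφ.id_le i)
    have h3 := hce (φ i) m h2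
    rw [tsum_eq_sum (s := Finset.range (φ i)) (fun n hn => by
      rw [hc0 (φ i) n (not_lt.1 fun h => hn (Finset.mem_range.2 h))]; simp)]
    exact h3
  -- the function
  set F : ℕ → ℂ → ℂ := fun n z => (b n : ℂ) * h n z with hF
  have hFd : ∀ n, Differentiable ℂ (F n) := fun n => (hhd n).const_mul _
  have hFb : ∀ n z, ‖F n z‖ ≤ 4 * K * Real.exp ((K + 1) * rho z) * Real.exp (-(c₁ * rho (a n))) := by
    intro n z
    show ‖(b n : ℂ) * h n z‖ ≤ _
    rw [norm_mul, Complex.norm_real, Real.norm_of_nonneg (hb' n).1, ← hre n]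
    calc b n * ‖h n z‖ ≤ r n * (4 * K * Real.exp ((K + 1) * rho z) * Real.exp (rho (a n))) :=
          mul_le_mul (hb' n).2 (hhb n z) (norm_nonneg _) (hr0 n).le
      _ = _ := by ring
  set f : ℂ → ℂ := fun z => ∑' n, F n z with hf
  have hloc : TendstoLocallyUniformlyOn (fun N z => ∑ n ∈ Finset.range N, F n z) f atTop univ := by
    have huniv : (⋃ R : ℕ, ball (0:ℂ) R) = univ := by
      refine eq_univ_of_forall fun z => mem_iUnion.2 ⟨⌊‖z‖⌋₊ + 1, ?_⟩
      rw [mem_ball_zero_iff]; push_cast; exact Nat.lt_floor_add_one _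
    rw [← huniv]
    refine tendstoLocallyUniformlyOn_iUnion (fun R => isOpen_ball) fun R => ?_
    refine TendstoUniformlyOn.tendstoLocallyUniformlyOn ?_
    obtain ⟨Mx, hMx⟩ := (isCompact_closedBall (0:ℂ) R).bddAbove_image
      (f := fun z => Real.exp ((K + 1) * rho z))
      (Real.continuous_exp.comp (continuous_const.mul continuous_rho)).continuousOn
    refine tendstoUniformlyOn_tsum_nat (u := fun n => 4 * K * Mx * Real.exp (-(c₁ * rho (a n))))
      (hsum.mul_left _) fun n z hz => ?_
    refine (hFb n z).trans ?_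
    have : Real.exp ((K + 1) * rho z) ≤ Mx := hMx ⟨z, ball_subset_closedBall hz, rfl⟩
    gcongr
  have hPd : ∀ N, Differentiable ℂ (fun z => ∑ n ∈ Finset.range N, F n z) := fun N => by
    exact Differentiable.fun_sum fun n _ => hFd n
  have hfd : Differentiable ℂ f := by
    rw [← differentiableOn_univ]
    exact hloc.differentiableOn (Eventually.of_forall fun N => (hPd N).differentiableOn) isOpen_univ
  have hder : ∀ k x, Tendsto (fun N => ∑ n ∈ Finset.range N, (b n : ℂ) * iteratedDeriv k (h n) x)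
      atTop (𝓝 (iteratedDeriv k f x)) := by
    intro k x
    have h1 := tendsto_iteratedDeriv hPd hloc k x
    refine h1.congr fun N => ?_
    rw [iteratedDeriv_fun_sum fun n _ => (hFd n).contDiff.contDiffAt]
    refine Finset.sum_congr rfl fun n _ => ?_
    exact iteratedDeriv_const_mul _ (hhd n).contDiff.contDiffAt
  have hvan : ∀ m, ∀ k < p m, iteratedDeriv k f (a m) = 0 := by
    intro m k hk
    have h1 := hder k (a m)
    simp only [hh0 _ m k hk, mul_zero, Finset.sum_const_zero] at h1
    exact tendsto_nhds_unique h1 tendsto_const_nhds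
  have hlead : ∀ m, iteratedDeriv (p m) f (a m) = ((p m).factorial : ℂ) * ∑' n, D m n * (b n : ℂ) := by
    intro m
    have h1 := hder (p m) (a m)
    have hsD : Summable fun n => D m n * (b n : ℂ) :=
      Summable.of_norm_bounded (hsumb m) fun n => hbd m n _ (hb' n)
    have h2 := (hsD.hasSum.tendsto_sum_nat).const_mul ((p m).factorial : ℂ)
    refine tendsto_nhds_unique h1 (h2.congr fun N => ?_)
    rw [Finset.mul_sum]
    refine Finset.sum_congr rfl fun n _ => ?_
    show ((p m).factorial : ℂ) * (iteratedDeriv (p m) (h n) (a m) / ((p m).factorial : ℂ) * (b n : ℂ))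
      = (b n : ℂ) * iteratedDeriv (p m) (h n) (a m)
    have := hfac m
    field_simp
  have hnorm : ∀ m, e m ≤ ‖iteratedDeriv (p m) f (a m)‖ / ((p m).factorial : ℝ) := by
    intro m
    rw [hlead m, norm_mul, Complex.norm_natCast, mul_div_cancel_left₀ _
      (by exact_mod_cast (p m).factorial_ne_zero)]
    exact hX m
  refine ⟨f, ⟨hfd, 4 * K * (S + 1), by positivity, K + 1, by positivity, fun z => ?_⟩, ?_, hvan,
    1 / (2 * (S + 2)), by positivity, 2 * c₁ + 1, by positivity, fun m => ?_⟩
  · -- growth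
    have hsF : Summable fun n => ‖F n z‖ :=
      Summable.of_nonneg_of_le (fun n => norm_nonneg _) (hFb · z) (hsum.mul_left _)
    calc ‖f z‖ ≤ ∑' n, ‖F n z‖ := norm_tsum_le_tsum_norm hsF
      _ ≤ ∑' n, 4 * K * Real.exp ((K + 1) * rho z) * Real.exp (-(c₁ * rho (a n))) :=
          hsF.tsum_le_tsum (hFb · z) (hsum.mul_left _)
      _ = 4 * K * Real.exp ((K + 1) * rho z) * S := tsum_mul_left
      _ ≤ 4 * K * (S + 1) * Real.exp ((K + 1) * rho z) := by
          have : 0 < 4 * K * Real.exp ((K + 1) * rho z) := by positivity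
          nlinarith
  · by_contra hcon
    push Not at hcon
    have h1 : f = 0 := funext hcon
    have h2 := hnorm 0
    rw [h1] at h2
    have h3 : iteratedDeriv (p 0) (0 : ℂ → ℂ) (a 0) = 0 := by
      have : (0 : ℂ → ℂ) = fun _ => 0 := rfl
      rw [this, iteratedDeriv_const]
      split_ifs <;> rfl
    rw [h3, norm_zero, zero_div] at h2
    exact absurd (he0 0) (not_lt.2 h2)
  · refine le_trans ?_ (hnorm m)
    show _ ≤ r m / (2 * L m)
    have h1 : (0:ℝ) < L m := by exact_mod_cast hLpos m
    rw [le_div_iff₀ (by positivity)]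
    have h2 : Real.exp (-((2 * c₁ + 1) * rho (a m))) * Real.exp (c₁ * rho (a m)) = r m := by
      rw [← Real.exp_add]; show _ = Real.exp _; congr 1; ring
    calc 1 / (2 * (S + 2)) * Real.exp (-((2 * c₁ + 1) * rho (a m))) * (2 * L m)
        ≤ 1 / (2 * (S + 2)) * Real.exp (-((2 * c₁ + 1) * rho (a m))) *
          (2 * ((S + 2) * Real.exp (c₁ * rho (a m)))) := by
          have := hLle m
          gcongr
      _ = Real.exp (-((2 * c₁ + 1) * rho (a m))) * Real.exp (c₁ * rho (a m)) := by
          field_simp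
      _ = r m := h2

end Pool.Agent.W778.UI
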