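import Pool.Agent.W778.UI.A

/-!
Uniform bounds from the universal interpolation property (Baire category on the Cantor set),
separation of the points, summability of the weights.
-/

set_option autoImplicit false

namespace Pool.Agent.W778.UI

open Set Filter Topology Metric

/-- Growth condition with constant `K`. -/
def Gr (K : ℝ) (g : ℂ → ℂ) : Prop := ∀ z, ‖g z‖ ≤ K * Real.exp (K * rho z)

theorem Gr.mono {K K' : ℝ} {g : ℂ → ℂ} (h : Gr K g) (hK : 0 ≤ K) (hKK : K ≤ K') : Gr K' g := by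
  intro z
  refine (h z).trans ?_
  have h1 := rho_nonneg z
  have h2 : Real.exp (K * rho z) ≤ Real.exp (K' * rho z) :=
    Real.exp_le_exp.2 (mul_le_mul_of_nonneg_right hKK h1)
  exact mul_le_mul hKK h2 (Real.exp_pos _).le (hK.trans hKK)

/-- The universal interpolation property. -/
def Univ (a : ℕ → ℂ) (p : ℕ → ℕ) : Prop :=
  ∀ lam : ℕ → ℕ → ℂ,
    (∃ A > (0:ℝ), ∃ B > (0:ℝ), ∀ n, ∀ κ < p n, ‖lam n κ‖ ≤ A * Real.exp (B * rho (a n))) →
    ∃ g : ℂ → ℂ, (Differentiable ℂ g ∧ ∃ A > (0:ℝ), ∃ B > (0:ℝ), ∀ z : ℂ,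
      ‖g z‖ ≤ A * Real.exp (B * rho z)) ∧
      ∀ n, ∀ κ < p n, iteratedDeriv κ g (a n) / (κ.factorial : ℂ) = lam n κ

/-- Solvability of the problem with data `ω` placed at order `q`. -/
def Sol (a : ℕ → ℂ) (p q : ℕ → ℕ) (K : ℝ) (ω : ℕ → Bool) : Prop :=
  ∃ g : ℂ → ℂ, Differentiable ℂ g ∧ Gr K g ∧
    ∀ m, ∀ κ < p m, iteratedDeriv κ g (a m) =
      if κ = q m ∧ ω m = true then (κ.factorial : ℂ) else 0

theorem Sol.mono {a : ℕ → ℂ} {p q : ℕ → ℕ} {K K' : ℝ} {ω : ℕ → Bool} (h : Sol a p q K ω)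
    (hK : 0 ≤ K) (hKK : K ≤ K') : Sol a p q K' ω := by
  obtain ⟨g, h1, h2, h3⟩ := h
  exact ⟨g, h1, h2.mono hK hKK, h3⟩

theorem exists_sol {a : ℕ → ℂ} {p : ℕ → ℕ} (hU : Univ a p) (q : ℕ → ℕ) (ω : ℕ → Bool) :
    ∃ K : ℕ, Sol a p q K ω := by
  classical
  obtain ⟨g, ⟨hg, A, hA, B, hB, hAB⟩, hi⟩ := hU
    (fun m κ => if κ = q m ∧ ω m = true then 1 else 0)
    ⟨1, one_pos, 1, one_pos, fun n κ _ => by
      have h1 : 1 ≤ Real.exp (1 * rho (a n)) :=
        Real.one_le_exp (by rw [one_mul]; exact rho_nonneg _)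
      split_ifs
      · simpa using h1
      · simp only [norm_zero]; positivity⟩
  refine ⟨⌈max A B⌉₊, g, hg, ?_, fun m κ hκ => ?_⟩
  · intro z
    have h0 : max A B ≤ (⌈max A B⌉₊ : ℝ) := Nat.le_ceil _
    have h1 := rho_nonneg z
    refine (hAB z).trans ?_
    have h2 : B * rho z ≤ (⌈max A B⌉₊ : ℝ) * rho z :=
      mul_le_mul_of_nonneg_right ((le_max_right _ _).trans h0) h1
    exact mul_le_mul ((le_max_left _ _).trans h0) (Real.exp_le_exp.2 h2) (Real.exp_pos _).le
      (Nat.cast_nonneg _)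
  · have h1 := hi m κ hκ
    have h2 : (κ.factorial : ℂ) ≠ 0 := by exact_mod_cast κ.factorial_ne_zero
    rw [div_eq_iff h2] at h1
    rw [h1]
    split_ifs <;> simp

theorem isClosed_sol (a : ℕ → ℂ) (p q : ℕ → ℕ) (K : ℝ) : IsClosed {ω | Sol a p q K ω} := by
  refine IsSeqClosed.isClosed ?_
  intro w ω hw hlim
  choose g hg hgr hgi using hw
  have hUle : ((hyperfilter ℕ : Ultrafilter ℕ) : Filter ℕ) ≤ atTop := Nat.hyperfilter_le_atTop
  obtain ⟨Φ, hΦd, hΦb, hΦ⟩ := montel_entire g hg (fun z => K * Real.exp (K * rho z))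
    (continuous_const.mul (Real.continuous_exp.comp (continuous_const.mul continuous_rho)))
    hgr (hyperfilter ℕ)
  refine ⟨Φ, hΦd, hΦb, fun m κ hκ => ?_⟩
  have h1 := tendsto_iteratedDeriv hg hΦ κ (a m)
  have h2 : ∀ᶠ i in ((hyperfilter ℕ : Ultrafilter ℕ) : Filter ℕ), iteratedDeriv κ (g i) (a m) =
      if κ = q m ∧ ω m = true then (κ.factorial : ℂ) else 0 := by
    have h3 : ∀ᶠ i in atTop, w i m = ω m := by
      have h4 := (tendsto_pi_nhds.1 hlim) m
      exact h4.eventually (eventually_of_mem (IsOpen.mem_nhds (isOpen_discrete {ω m}) rfl)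
        fun x hx => hx)
    filter_upwards [hUle h3] with i hi
    rw [hgi i m κ hκ, hi]
  exact tendsto_nhds_unique h1 ((tendsto_congr' h2).2 tendsto_const_nhds)

theorem sol_diff {a : ℕ → ℂ} {p q : ℕ → ℕ} {K : ℝ} (hK : 0 ≤ K) {ω : ℕ → Bool} {n : ℕ}
    (h1 : Sol a p q K (Function.update ω n true)) (h2 : Sol a p q K (Function.update ω n false)) :
    Sol a p q (2 * K) (fun m => decide (m = n)) := by
  obtain ⟨g₁, d₁, b₁, i₁⟩ := h1
  obtain ⟨g₂, d₂, b₂, i₂⟩ := h2
  refine ⟨g₁ - g₂, d₁.sub d₂, fun z => ?_, fun m κ hκ => ?_⟩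
  · have h3 := b₁ z
    have h4 := b₂ z
    have h5 : Real.exp (K * rho z) ≤ Real.exp (2 * K * rho z) := by
      apply Real.exp_le_exp.2
      have := mul_nonneg hK (rho_nonneg z)
      linarith
    calc ‖(g₁ - g₂) z‖ ≤ ‖g₁ z‖ + ‖g₂ z‖ := norm_sub_le _ _
      _ ≤ 2 * K * Real.exp (K * rho z) := by linarith
      _ ≤ 2 * K * Real.exp (2 * K * rho z) := by gcongr
  · rw [iteratedDeriv_sub d₁.contDiff.contDiffAt d₂.contDiff.contDiffAt, i₁ m κ hκ, i₂ m κ hκ]
    by_cases hm : m = n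
    · subst hm
      simp
    · simp [hm]

/-- Uniform solvability of the unit problems. -/
theorem uniform_unit {a : ℕ → ℂ} {p : ℕ → ℕ} (hU : Univ a p) (q : ℕ → ℕ) :
    ∃ K : ℝ, 1 ≤ K ∧ ∀ n, Sol a p q K (fun m => decide (m = n)) := by
  classical
  have hun : (⋃ K : ℕ, {ω : ℕ → Bool | Sol a p q K ω}) = univ :=
    eq_univ_of_forall fun ω => mem_iUnion.2 (exists_sol hU q ω)
  obtain ⟨K₀, ω, hω⟩ := nonempty_interior_of_iUnion_of_closed
    (fun K : ℕ => isClosed_sol a p q (K : ℝ)) hun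
  have hopen : {ω : ℕ → Bool | Sol a p q K₀ ω} ∈ 𝓝 ω := mem_interior_iff_mem_nhds.1 hω
  have ht : ∀ b : Bool, Tendsto (fun n => Function.update ω n b) atTop (𝓝 ω) := by
    intro b
    refine tendsto_pi_nhds.2 fun m => ?_
    refine (tendsto_congr' ?_).2 tendsto_const_nhds
    filter_upwards [eventually_gt_atTop m] with n hn
    exact Function.update_of_ne hn.ne _ _
  obtain ⟨n₀, hn₀⟩ := eventually_atTop.1 (((ht true).eventually hopen).and
    ((ht false).eventually hopen))
  choose κ hκ using fun n : ℕ => exists_sol hU q (fun m => decide (m = n))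
  refine ⟨1 + 2 * K₀ + ∑ n ∈ Finset.range n₀, (κ n : ℝ), ?_, fun n => ?_⟩
  · have : 0 ≤ ∑ n ∈ Finset.range n₀, (κ n : ℝ) := Finset.sum_nonneg fun _ _ => Nat.cast_nonneg _
    have h2 : (0:ℝ) ≤ K₀ := Nat.cast_nonneg _
    linarith
  · have h0 : 0 ≤ ∑ n ∈ Finset.range n₀, (κ n : ℝ) := Finset.sum_nonneg fun _ _ => Nat.cast_nonneg _
    have h2 : (0:ℝ) ≤ K₀ := Nat.cast_nonneg _
    rcases lt_or_ge n n₀ with h | h
    · refine (hκ n).mono (Nat.cast_nonneg _) ?_
      have : (κ n : ℝ) ≤ ∑ n ∈ Finset.range n₀, (κ n : ℝ) :=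
        Finset.single_le_sum (f := fun n => (κ n : ℝ)) (fun _ _ => Nat.cast_nonneg _)
          (Finset.mem_range.2 h)
      linarith
    · have h3 := hn₀ n h
      refine (sol_diff h2 h3.1 h3.2).mono (by positivity) ?_
      linarith

/-- Separation of the points. -/
theorem separation {a : ℕ → ℂ} {p : ℕ → ℕ} (hU : Univ a p) (hp : ∀ n, 1 ≤ p n) :
    ∃ K : ℝ, 1 ≤ K ∧ ∀ n m, m ≠ n → Real.exp (-(K * rho (a n))) / K ≤ ‖a m - a n‖ := by
  obtain ⟨K, hK, hs⟩ := uniform_unit hU (fun _ => 0)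
  have hK0 : 0 < K := by linarith
  refine ⟨3 * K * Real.exp (5 * K), ?_, fun n m hmn => ?_⟩
  · have : 1 ≤ Real.exp (5 * K) := Real.one_le_exp (by positivity)
    nlinarith
  set K' := 3 * K * Real.exp (5 * K) with hK'
  have hK'K : K ≤ K' := by
    have : 1 ≤ Real.exp (5 * K) := Real.one_le_exp (by positivity)
    rw [hK']
    nlinarith
  have hK'0 : 0 < K' := by positivity
  have hr := rho_nonneg (a n)
  rcases lt_or_ge ‖a m - a n‖ 2 with h | h
  · obtain ⟨g, hg, hb, hi⟩ := hs n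
    have h1 : g (a n) = 1 := by
      have := hi n 0 (hp n)
      simpa using this
    have h2 : g (a m) = 0 := by
      have := hi m 0 (hp m)
      simpa [hmn] using this
    set M := K * Real.exp (K * (rho (a n) + 5)) with hM
    have hM1 : 1 ≤ M := by
      have : 1 ≤ Real.exp (K * (rho (a n) + 5)) := Real.one_le_exp (by positivity)
      rw [hM]; nlinarith
    have hMb : ∀ z ∈ ball (a n) 2, ‖g z‖ ≤ M := by
      intro z hz
      refine (hb z).trans ?_
      have h3 : rho z ≤ rho (a n) + 5 := rho_le (by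
        rw [mem_ball, dist_eq_norm] at hz; exact hz.le)
      rw [hM]
      gcongr
    have hmaps : MapsTo g (ball (a n) 2) (closedBall (g (a n)) (2 * M)) := by
      intro z hz
      rw [mem_closedBall, dist_eq_norm]
      calc ‖g z - g (a n)‖ ≤ ‖g z‖ + ‖g (a n)‖ := norm_sub_le _ _
        _ ≤ M + M := add_le_add (hMb z hz) (hMb _ (mem_ball_self (by norm_num)))
        _ = 2 * M := by ring
    have hmem : a m ∈ ball (a n) 2 := by rw [mem_ball, dist_eq_norm]; exact h
    have h3 := Complex.dist_le_div_mul_dist_of_mapsTo_ball hg.differentiableOn hmaps hmem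
    rw [h1, h2, dist_eq_norm, dist_eq_norm] at h3
    have h4 : 1 ≤ M * ‖a m - a n‖ := by
      have : 2 * M / 2 = M := by ring
      rw [this] at h3
      simpa using h3
    have h5 : M ≤ K' * Real.exp (K' * rho (a n)) := by
      have : K * (rho (a n) + 5) = 5 * K + K * rho (a n) := by ring
      rw [hM, this, Real.exp_add, hK']
      have h6 : Real.exp (K * rho (a n)) ≤ Real.exp (K' * rho (a n)) :=
        Real.exp_le_exp.2 (mul_le_mul_of_nonneg_right hK'K hr)
      have h7 : 0 < Real.exp (5 * K) := Real.exp_pos _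
      have h8 : 0 < Real.exp (K * rho (a n)) := Real.exp_pos _
      calc K * (Real.exp (5 * K) * Real.exp (K * rho (a n)))
          ≤ 3 * K * Real.exp (5 * K) * Real.exp (K * rho (a n)) := by nlinarith [mul_pos hK0 (mul_pos h7 h8)]
        _ ≤ 3 * K * Real.exp (5 * K) * Real.exp (3 * K * Real.exp (5 * K) * rho (a n)) := by
            gcongr
    rw [div_le_iff₀ hK'0, Real.exp_neg, inv_le_iff_one_le_mul₀ (Real.exp_pos _)]
    have h9 : M * ‖a m - a n‖ ≤ K' * Real.exp (K' * rho (a n)) * ‖a m - a n‖ := by gcongr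
    linarith
  · refine le_trans ?_ h
    have h1 : Real.exp (-(K' * rho (a n))) ≤ 1 := Real.exp_le_one_iff.2 (by
      have := mul_nonneg hK'0.le hr; linarith)
    rw [div_le_iff₀ hK'0]
    nlinarith

/-- Summability of a power of the weights. -/
theorem summable_weight {a : ℕ → ℂ} {p : ℕ → ℕ} (hU : Univ a p) (hp : ∀ n, 1 ≤ p n) :
    ∃ c : ℝ, 0 < c ∧ Summable fun n => Real.exp (-(c * rho (a n))) := by
  obtain ⟨K, hK, hs⟩ := separation hU hp
  have hK0 : 0 < K := by linarith
  refine ⟨2 * K + 3, by positivity, ?_⟩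
  set δ : ℕ → ℝ := fun n => Real.exp (-(K * rho (a n))) / K / 2 with hδ
  have hδ0 : ∀ n, 0 < δ n := fun n => by rw [hδ]; positivity
  have hδ1 : ∀ n, δ n ≤ 1 := fun n => by
    have h1 : Real.exp (-(K * rho (a n))) ≤ 1 := Real.exp_le_one_iff.2 (by
      have := mul_nonneg hK0.le (rho_nonneg (a n)); linarith)
    show Real.exp (-(K * rho (a n))) / K / 2 ≤ 1
    rw [div_div, div_le_one (by positivity)]
    linarith
  set w : ℂ → ℝ := fun z => (1 + ‖z‖) ^ (-(3:ℝ)) with hw
  have hw0 : ∀ z, 0 ≤ w z := fun z => by rw [hw]; positivity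
  have hwi : MeasureTheory.Integrable w := by
    refine integrable_one_add_norm ?_
    rw [Complex.finrank_real_complex]; norm_num
  have hdisj : Pairwise (Function.onFun Disjoint fun n => ball (a n) (δ n)) := by
    intro n m hnm
    refine ball_disjoint_ball ?_
    have h1 := hs n m hnm.symm
    have h2 := hs m n hnm
    rw [norm_sub_rev] at h2
    rw [dist_comm, dist_eq_norm]
    show Real.exp (-(K * rho (a n))) / K / 2 + Real.exp (-(K * rho (a m))) / K / 2 ≤ _
    linarith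
  -- lower bound of the integral over a ball
  have hlow : ∀ n, Real.pi / (256 * K ^ 2) * Real.exp (-((2 * K + 3) * rho (a n)))
      ≤ ∫ z in ball (a n) (δ n), w z := by
    intro n
    have h1 : ∀ z ∈ ball (a n) (δ n), (2 * (2 * Real.exp (rho (a n)))) ^ (-(3:ℝ)) ≤ w z := by
      intro z hz
      rw [mem_ball, dist_eq_norm] at hz
      have h2 : ‖z‖ ≤ ‖a n‖ + 1 := by
        have := norm_sub_norm_le z (a n)
        have := hδ1 n
        linarith
      have h3 := one_add_norm_le (a n)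
      have h4 : 1 + ‖z‖ ≤ 2 * (2 * Real.exp (rho (a n))) := by
        have := norm_nonneg (a n)
        linarith
      exact Real.rpow_le_rpow_of_nonpos (by positivity) h4 (by norm_num)
    have h5 : ∫ z in ball (a n) (δ n), (2 * (2 * Real.exp (rho (a n)))) ^ (-(3:ℝ))
        ≤ ∫ z in ball (a n) (δ n), w z := by
      refine MeasureTheory.setIntegral_mono_on ?_ hwi.integrableOn measurableSet_ball h1
      exact MeasureTheory.integrableOn_const (by
        exact (MeasureTheory.measure_ball_lt_top).ne)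
    refine le_trans (le_of_eq ?_) h5
    rw [MeasureTheory.setIntegral_const, MeasureTheory.measureReal_def, Complex.volume_ball]
    have h6 : (ENNReal.ofReal (δ n) ^ 2 * (NNReal.pi : ENNReal)).toReal = (δ n) ^ 2 * Real.pi := by
      rw [ENNReal.toReal_mul, ENNReal.toReal_pow, ENNReal.toReal_ofReal (hδ0 n).le]
      rfl
    rw [h6]
    have h7 : (2 * (2 * Real.exp (rho (a n)))) ^ (-(3:ℝ)) = (1 / 64) * Real.exp (-(3 * rho (a n))) := by
      rw [show (2 * (2 * Real.exp (rho (a n)))) = 4 * Real.exp (rho (a n)) by ring,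
        Real.mul_rpow (by norm_num) (Real.exp_pos _).le, ← Real.exp_mul]
      congr 1
      · rw [show (-(3:ℝ)) = ((-3 : ℤ) : ℝ) by norm_num, Real.rpow_intCast]
        norm_num
      · congr 1; ring
    rw [h7]
    have h8 : (δ n) ^ 2 = 1 / (4 * K ^ 2) * Real.exp (-(2 * K * rho (a n))) := by
      show (Real.exp (-(K * rho (a n))) / K / 2) ^ 2 = _
      have : Real.exp (-(2 * K * rho (a n))) = Real.exp (-(K * rho (a n))) ^ 2 := by
        rw [← Real.exp_nat_mul]; congr 1; push_cast; ring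
      rw [this]
      field_simp
      norm_num
    rw [h8, smul_eq_mul]
    have h9 : Real.exp (-((2 * K + 3) * rho (a n))) =
        Real.exp (-(2 * K * rho (a n))) * Real.exp (-(3 * rho (a n))) := by
      rw [← Real.exp_add]; congr 1; ring
    rw [h9]
    field_simp
    norm_num
  have hsum : ∀ s : Finset ℕ, ∑ n ∈ s, Real.exp (-((2 * K + 3) * rho (a n)))
      ≤ (∫ z, w z) / (Real.pi / (256 * K ^ 2)) := by
    intro s
    rw [le_div_iff₀ (by positivity), Finset.sum_mul]
    calc ∑ n ∈ s, Real.exp (-((2 * K + 3) * rho (a n))) * (Real.pi / (256 * K ^ 2))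
        ≤ ∑ n ∈ s, ∫ z in ball (a n) (δ n), w z := by
          refine Finset.sum_le_sum fun n _ => ?_
          rw [mul_comm]; exact hlow n
      _ = ∫ z in ⋃ n ∈ s, ball (a n) (δ n), w z := by
          rw [MeasureTheory.integral_biUnion_finset s (fun _ _ => measurableSet_ball)
            (hdisj.set_pairwise _) (fun _ _ => hwi.integrableOn)]
      _ ≤ ∫ z, w z := MeasureTheory.setIntegral_le_integral hwi
          (Eventually.of_forall hw0)
  exact summable_of_sum_le (fun n => (Real.exp_pos _).le) hsum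

end Pool.Agent.W778.UI
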